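import Pool.Agent.H21.Sg13

namespace Pool.Agent.Results.MP_065e13_lc.ERComplete

open Pool.Agent.H11.PT Pool.Agent.H21.ER

theorem result : ∀ d : ℕ, 3 ≤ d →
    (∃ f : Qf → List ℕ × List (ℕ × ℕ), PolyTime bits bits f ∧ ∀ φ, IsGraph (f φ) ∧ (ETR φ ↔ BallGraph d (f φ))) ∧
    ∃ g : List ℕ × List (ℕ × ℕ) → Qf, PolyTime bits bits g ∧ ∀ G, BallGraph d G ↔ ETR (g G) :=
  Pool.Agent.H21.LV.bl_main

end Pool.Agent.Results.MP_065e13_lc.ERComplete
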